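import Pool.Agent.H500.ME.Stm
import Pool.Agent.H115.HC.Nrm

set_option autoImplicit false
set_option linter.unusedSectionVars false

/-!
# Part B11 of project ME: the norm and the cyclotomic character
-/

namespace Pool.Agent.H738.ME.NMC

open NumberField IsDedekindDomain Filter Topology Polynomial
open Pool.Agent.W401.Cheb (GK IsFrob IsInert dens)
open Pool.Agent.H500.HC (InRay QBar ZBar jz TotPos)
open Pool.Agent.H500.TH (typB)
open Pool.Agent.H500.ED (IsHecke S_AVA)
open Pool.Agent.Q92.AR (Dv Ray prin Pos)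
open Pool.Agent.H500.ME

section
variable {K : Type} [Field K] [NumberField K]

/-- the norm as a product over the embeddings -/
theorem prod_emb (x : K) : ∏ σ : K →+* QBar, σ x = algebraMap ℚ QBar (Algebra.norm ℚ x) := by
  rw [Algebra.norm_eq_prod_embeddings ℚ QBar x]
  exact Fintype.prod_equiv (RingHom.equivRatAlgHom K QBar) _ _ (fun _ => rfl)

theorem norm_pos_of (x : K) (hx : x ≠ 0) (h : ∀ τ : K →+* ℝ, 0 < τ x) :
    0 < Algebra.norm ℚ x := by
  have h1 := Pool.Agent.H115.HC.Nrm.pos_norm (K := ℚ) x hx h (algebraMap ℚ ℝ)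
  rw [eq_ratCast] at h1
  exact_mod_cast h1

/-- the norm of ideals -/
noncomputable def nm : Ideal (𝓞 K) →*₀ ZBar :=
  (Nat.castRingHom ZBar).toMonoidWithZeroHom.comp Ideal.absNorm

theorem nm_apply (𝔞 : Ideal (𝓞 K)) : (nm 𝔞 : ZBar) = ((Ideal.absNorm 𝔞 : ℕ) : ZBar) := rfl

theorem zq_inj : Function.Injective (algebraMap ZBar QBar) := RingOfIntegers.coe_injective

theorem nm_hecke : IsHecke (K := K) 1 1 (fun _ => 1) nm where
  cop := by
    intro 𝔞 h𝔞
    constructor
    · intro _
      rw [Nat.cast_one, Ideal.span_singleton_one, ← Ideal.one_eq_top]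
      exact isCoprime_one_right
    · intro _ h
      rw [nm_apply] at h
      have h2 : Ideal.absNorm 𝔞 = 0 := by exact_mod_cast h
      exact h𝔞 (Ideal.absNorm_eq_zero_iff.mp h2)
  typ := by
    rintro x ⟨hx0, _, hxp⟩
    apply zq_inj
    have hx0' : (x : K) ≠ 0 := by exact_mod_cast hx0
    have hp := norm_pos_of (x : K) hx0' hxp
    have h1 : algebraMap ZBar QBar (typB (fun _ => 1) x) = ∏ σ : K →+* QBar, σ (x : K) := by
      unfold typB
      rw [map_prod]
      refine Finset.prod_congr rfl fun σ _ => ?_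
      rw [pow_one]
      rfl
    rw [h1, prod_emb, nm_apply, map_natCast, Ideal.absNorm_span_singleton,
      ← Algebra.coe_norm_int] at *
    have h3 : 0 < Algebra.norm ℤ x := by exact_mod_cast hp
    have h4 : (((Algebra.norm ℤ x).natAbs : ℕ) : ℤ) = Algebra.norm ℤ x :=
      Int.natAbs_of_nonneg h3.le
    rw [map_intCast, ← Int.cast_natCast, h4]

/-- the norm of divisors, as a homomorphism -/
noncomputable def un (v : HeightOneSpectrum (𝓞 K)) : QBarˣ :=
  Units.mk0 ((Ideal.absNorm v.asIdeal : ℕ) : QBar) (by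
    rw [Nat.cast_ne_zero, Ne, Ideal.absNorm_eq_zero_iff]
    exact v.ne_bot)

/-- the norm of divisors -/
noncomputable def ph : Dv K →+ Additive QBarˣ :=
  Finsupp.liftAddHom fun v => (zmultiplesHom (Additive QBarˣ)) (Additive.ofMul (un v))

theorem ph_val (D : Dv K) :
    (((ph D).toMul : QBarˣ) : QBar) =
      ∏ v ∈ D.support, ((Ideal.absNorm v.asIdeal : ℕ) : QBar) ^ D v := by
  unfold ph
  rw [Finsupp.liftAddHom_apply, Finsupp.sum, toMul_sum, Units.coe_prod]
  refine Finset.prod_congr rfl fun v _ => ?_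
  rw [zmultiplesHom_apply, toMul_zsmul, toMul_ofMul, Units.val_zpow_eq_zpow_val]
  rfl

theorem ph_prin (x : Kˣ) : (((ph (prin x)).toMul : QBarˣ) : QBar) =
    algebraMap ℚ QBar |Algebra.norm ℚ (x : K)| := by
  classical
  rw [ph_val]
  have hne : FractionalIdeal.spanSingleton (nonZeroDivisors (𝓞 K)) (x : K) ≠ 0 :=
    FractionalIdeal.spanSingleton_ne_zero_iff.2 x.ne_zero
  have h1 := FractionalIdeal.finprod_heightOneSpectrum_factorization' K hne
  rw [finprod_eq_prod_of_mulSupport_subset (s := (prin x).support)] at h1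
  · have h2 := congrArg FractionalIdeal.absNorm h1
    rw [FractionalIdeal.absNorm_span_singleton, map_prod] at h2
    rw [← h2, map_prod]
    refine Finset.prod_congr rfl fun v _ => ?_
    rw [map_zpow₀, map_zpow₀, FractionalIdeal.coeIdeal_absNorm, map_natCast]
    rfl
  · intro v hv
    rw [Finset.mem_coe, Finsupp.mem_support_iff]
    intro h
    rw [Function.mem_mulSupport] at hv
    apply hv
    have h' : FractionalIdeal.count K v
        (FractionalIdeal.spanSingleton (nonZeroDivisors (𝓞 K)) (x : K)) = 0 := h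
    rw [h', zpow_zero]

theorem ph_at (v : HeightOneSpectrum (𝓞 K)) :
    at1 ph v = ((Ideal.absNorm v.asIdeal : ℕ) : QBar) := by
  unfold at1 ph
  rw [Finsupp.liftAddHom_apply_single, zmultiplesHom_apply, one_smul]
  rfl

theorem ph_alg (M : ℕ) : IsAlg (L := K) M (fun _ => 1) ph := by
  rintro x ⟨_, hxp⟩
  have hp := norm_pos_of (x : K) x.ne_zero hxp
  apply Additive.toMul.injective
  rw [toMul_ofMul]
  apply Units.ext
  rw [ph_prin, abs_of_pos hp, ← prod_emb]
  unfold typU
  rw [Units.coe_prod]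
  refine Finset.prod_congr rfl fun σ _ => ?_
  rw [zpow_one]
  rfl

end

/-- **Part B11.** -/
theorem main : Pool.Agent.H500.ED.S_AVA → Pool.Agent.H500.ME.S_NMC := by
  intro hA K _ _ ℓ _ κ
  obtain ⟨χ, hc, hχ⟩ := hA K 1 1 (fun _ => 1) nm one_pos (dvd_refl 1) nm_hecke ℓ κ
  have h1 : ∀ v : HeightOneSpectrum (𝓞 K), ((1 : ℕ) : 𝓞 K) ∉ v.asIdeal := by
    intro v
    rw [Nat.cast_one]
    exact (Ideal.ne_top_iff_one _).mp v.isPrime.ne_top
  refine ⟨ph, χ, ⟨(Fact.out : ℓ.Prime).pos, hc, ph_alg ℓ, fun w hw s hs => (hχ w (h1 w) hw).1 s hs,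
    fun w hw s hs => ?_⟩, ph_at⟩
  rw [(hχ w (h1 w) hw).2 s hs, ph_at, nm_apply]
  congr 1

end Pool.Agent.H738.ME.NMC
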